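import Mathlib
import Pool.Agent.H97R2.BP.Defs
import Pool.Agent.H97R2.BP.Defs2

open scoped ComplexOrder InnerProductSpace ComplexConjugate TensorProduct
open Finset H759R2.Kad H710R2.DP

noncomputable section

namespace H97R2.BP

theorem bp_final (h1 : Z_fincase) (h2 : Z_pinf) (h3 : Z_glue) (h4 : W_isom.{0}) (h5 : W_sub.{0})
    (h6 : C_wst.{0}) : Z_main := by
  intro H _ _ _ M P hP1 hP2
  have hproj : IsProj M P.toLinearMap (max 1 ‖P‖) := by
    refine ⟨hP1, hP2, fun x => ?_⟩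
    exact (P.le_opNorm x).trans (mul_le_mul_of_nonneg_right (le_max_right _ _) (norm_nonneg x))
  have hI : Inj M 1 := by
    apply h3 H M
    intro q hq hq0
    let e : M.toStarSubalgebra := ⟨q, hq.2.1⟩
    have he : CPrj e := by
      refine ⟨⟨Subtype.ext hq.1.1, Subtype.ext hq.1.2⟩, fun a => Subtype.ext ?_⟩
      exact hq.2.2 a a.2
    by_cases hz : ∃ z : M.toStarSubalgebra, CPrj z ∧ e * z = z ∧ z ≠ 0 ∧ Fnt z
    · obtain ⟨z, hz1, hz2, hz3, hz4⟩ := hz
      obtain ⟨p, hp1, hp2, hp3, hp4⟩ := h1 H M P.toLinearMap _ (le_max_left _ _) hproj z hz1 hz3 hz4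
      refine ⟨p, hp1, hp2, ?_, hp4⟩
      have hqz : q * (z : H →L[ℂ] H) = z := congrArg Subtype.val hz2
      calc q * p = q * ((z : H →L[ℂ] H) * p) := by rw [hp3]
        _ = (q * (z : H →L[ℂ] H)) * p := by rw [mul_assoc]
        _ = p := by rw [hqz, hp3]
    · obtain ⟨s₁, s₂, a1, a2, a3, a4, a5⟩ := h4 M.toStarSubalgebra (h6 H M) e he
        (fun z hz1 hz2 hz3 => by
          by_contra hz4
          exact hz ⟨z, hz1, hz2, hz4, hz3⟩)
      refine ⟨q, hq, hq0, hq.1.2, ?_⟩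
      exact h2 H M P.toLinearMap _ (le_trans zero_le_one (le_max_left _ _)) hproj q s₁ s₂ hq
        s₁.2 s₂.2 (congrArg Subtype.val a1) (congrArg Subtype.val a2) (congrArg Subtype.val a3)
        (congrArg Subtype.val a4) (congrArg Subtype.val a5)
  obtain ⟨Q, hQ1, hQ2, hQ3⟩ := hI
  refine ⟨LinearMap.mkContinuous Q 1 (fun x => by rw [one_mul]; exact hQ1 x), fun x => (hQ2 x).1,
    fun m hm => hQ3 m hm (one_mul m) (mul_one m), ?_⟩
  exact LinearMap.mkContinuous_norm_le _ zero_le_one _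

end H97R2.BP
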